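import Mathlib

namespace Pool.Agent.H.MP_086516_nt

open Polynomial Finset

noncomputable def Lg {R : Type} [CommRing R] (g : ℕ → R) : R[X] →ₗ[R] R :=
  lsum fun n => g n • LinearMap.id

theorem Lg_mono {R : Type} [CommRing R] (g : ℕ → R) (n : ℕ) (a : R) :
    Lg g (monomial n a) = g n * a := by
  simp [Lg, sum_monomial_index]

theorem Lg_pow {R : Type} [CommRing R] (g : ℕ → R) (n : ℕ) : Lg g (X ^ n) = g n := by
  rw [← monomial_one_right_eq_X_pow, Lg_mono, mul_one]

theorem Lg_map (g : ℕ → ℤ) (P : ℤ[X]) :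
    Lg (fun n => (g n : ℂ)) (P.map (Int.castRingHom ℂ)) = (Lg g P : ℤ) := by
  induction P using Polynomial.induction_on' with
  | add p q hp hq => simp [Polynomial.map_add, hp, hq]
  | monomial n a => simp [Lg_mono]

theorem killC (k : ℕ) (hk : 1 < k) (g : ℕ → ℂ)
    (h : ∀ q, q.Prime → q ∣ k → ∀ i, ∑ t ∈ range q, g (i + t * (k / q)) = 0) (f : ℂ[X]) :
    Lg g (cyclotomic k ℂ * f) = 0 := by
  classical
  let I : Ideal ℂ[X] :=
    { carrier := {P | ∀ f, Lg g (P * f) = 0}
      add_mem' := fun {a b} ha hb f => by rw [add_mul, map_add, ha f, hb f, add_zero]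
      zero_mem' := fun f => by simp
      smul_mem' := fun c P hP f => by rw [smul_eq_mul, mul_comm c, mul_assoc]; exact hP _ }
  have hq : ∀ q, q.Prime → q ∣ k → ∑ t ∈ range q, (X ^ (k / q)) ^ t ∈ I := fun q h1 h2 f => by
    induction f using Polynomial.induction_on' with
    | add p q hp hq => rw [mul_add, map_add, hp, hq, add_zero]
    | monomial n a =>
      rw [sum_mul, map_sum]
      simp only [← pow_mul, X_pow_mul_monomial, Lg_mono]
      rw [← sum_mul, sum_congr rfl fun t _ => by rw [mul_comm (k / q)], h q h1 h2, zero_mul]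
  obtain ⟨D, hD⟩ := (IsPrincipalIdealRing.principal I).principal
  have dv : ∀ P ∈ I, D ∣ P := fun P hP => Ideal.mem_span_singleton.1 (by rwa [hD] at hP)
  obtain ⟨q0, p0, d0⟩ := Nat.exists_prime_and_dvd hk.ne'
  have d1 : D ∣ X ^ k - 1 := (dv _ (hq q0 p0 d0)).trans ⟨X ^ (k / q0) - 1, by
    rw [geom_sum_mul, ← pow_mul, Nat.div_mul_cancel d0]⟩
  have n0 : (X ^ k - 1 : ℂ[X]) ≠ 0 := by
    simpa using X_pow_sub_C_ne_zero (R := ℂ) (by omega : 0 < k) 1
  have D0 : D ≠ 0 := fun e => n0 (by simpa [e] using d1)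
  have sep : (X ^ k - 1 : ℂ[X]).Separable := by
    simpa using separable_X_pow_sub_C (1 : ℂ) (by exact_mod_cast (by omega : k ≠ 0)) one_ne_zero
  have d2 : D ∣ cyclotomic k ℂ := by
    refine (IsAlgClosed.splits D).dvd_of_roots_le_roots D0
      ((Multiset.le_iff_subset (nodup_roots (sep.of_dvd d1))).2 fun w hw => ?_)
    have hw := (mem_roots D0).1 hw
    have : NeZero (k : ℂ) := ⟨by exact_mod_cast (by omega : k ≠ 0)⟩
    rw [mem_roots (cyclotomic_ne_zero k ℂ), isRoot_cyclotomic_iff]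
    have e1 : w ^ k = 1 := by simpa [sub_eq_zero] using hw.dvd d1
    rw [← orderOf_eq_of_pow_and_pow_div_prime (by omega) e1 fun q h1 h2 e => ?_]
    · exact IsPrimitiveRoot.orderOf w
    · have := hw.dvd (dv _ (hq q h1 h2))
      simp [eval_finsetSum, e] at this
      exact h1.ne_zero this
  have : cyclotomic k ℂ ∈ I := by rw [hD]; exact Ideal.mem_span_singleton.2 d2
  exact this f

theorem killZ (k : ℕ) (hk : 1 < k) (g : ℕ → ℤ)
    (h : ∀ q, q.Prime → q ∣ k → ∀ i, ∑ t ∈ range q, g (i + t * (k / q)) = 0) (f : ℤ[X]) :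
    Lg g (cyclotomic k ℤ * f) = 0 := by
  have := killC k hk (fun n => (g n : ℂ)) (fun q h1 h2 i => by exact_mod_cast h q h1 h2 i)
    (f.map (Int.castRingHom ℂ))
  rw [← map_cyclotomic_int, ← Polynomial.map_mul, Lg_map] at this
  exact_mod_cast this

def dig (k q i : ℕ) : ZMod q := (i / q ^ (k.factorization q - 1) : ℕ)

theorem dig_other {k q r : ℕ} (hk : k ≠ 0) (hq : q.Prime) (hr : r.Prime) (d1 : q ∣ k) (d2 : r ∣ k)
    (h : q ≠ r) (i t : ℕ) : dig k r (i + t * (k / q)) = dig k r i := by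
  have p := hr.factorization_pos_of_dvd hk d2
  have : r ^ k.factorization r ∣ k / q := by
    refine (Nat.Coprime.pow_left _ ((Nat.coprime_primes hr hq).2 h.symm)).dvd_of_dvd_mul_right ?_
    rw [Nat.div_mul_cancel d1]; exact Nat.ordProj_dvd k r
  obtain ⟨c, hc⟩ := this
  rw [dig, dig, hc, show t * (r ^ k.factorization r * c) =
    r * (t * c) * r ^ (k.factorization r - 1) by
      conv_lhs => rw [← Nat.sub_add_cancel p, pow_succ]
      ring, Nat.add_mul_div_right _ _ (pow_pos hr.pos _)]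
  simp

theorem dig_sum {M : Type} [AddCommMonoid M] {k q : ℕ} (hk : k ≠ 0) [hq : Fact q.Prime]
    (d1 : q ∣ k) (i : ℕ) (F : ZMod q → M) :
    ∑ t ∈ range q, F (dig k q (i + t * (k / q))) = ∑ t ∈ range q, F t := by
  have p := hq.out.factorization_pos_of_dvd hk d1
  have c0 : ((ordCompl[q] k : ℕ) : ZMod q) ≠ 0 := by
    rw [Ne, ZMod.natCast_eq_zero_iff]; exact Nat.not_dvd_ordCompl hq.out hk
  have e : k / q = ordCompl[q] k * q ^ (k.factorization q - 1) := by
    refine Nat.div_eq_of_eq_mul_left hq.out.pos ?_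
    rw [mul_assoc, ← pow_succ, Nat.sub_add_cancel p, mul_comm, Nat.ordProj_mul_ordCompl_eq_self]
  have s : ∀ G : ZMod q → M, ∑ t ∈ range q, G t = ∑ y, G y := fun G =>
    sum_nbij (fun t => (t : ZMod q)) (by simp) (fun a ha b hb e => by
      have := congrArg ZMod.val e
      rwa [ZMod.val_cast_of_lt (by simpa using ha), ZMod.val_cast_of_lt (by simpa using hb)] at this)
      (fun y _ => ⟨y.val, by simpa using ZMod.val_lt y, by simp⟩) (by simp)
  simp only [dig, e, ← mul_assoc, Nat.add_mul_div_right _ _ (pow_pos hq.out.pos _), Nat.cast_add,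
    Nat.cast_mul]
  rw [s fun y => F (_ + y * _), s F]
  exact Equiv.sum_comp ((Equiv.mulRight₀ _ c0).trans (Equiv.addLeft _)) F

theorem sum_mul_range {M : Type} [AddCommMonoid M] (f : ℕ → M) (m p : ℕ) :
    ∑ i ∈ range (p * m), f i = ∑ r ∈ range m, ∑ t ∈ range p, f (r + t * m) := by
  induction p with
  | zero => simp
  | succ p ih =>
    rw [Nat.succ_mul, sum_range_add, ih, ← sum_add_distrib]
    exact sum_congr rfl fun r _ => by rw [sum_range_succ, add_comm r]

def w (p q : ℕ) (x : ZMod q) : ℤ :=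
  if q = p then 2 * x.val + 1 - q else if x = 0 then q - 1 else -1

def g (k p i : ℕ) : ℤ := ∏ q ∈ k.primeFactors, w p q (dig k q i)

theorem g_eq {k q : ℕ} (hk : k ≠ 0) (hq : q.Prime) (d : q ∣ k) (p i t : ℕ) :
    g k p (i + t * (k / q)) =
      w p q (dig k q (i + t * (k / q))) * ∏ r ∈ k.primeFactors.erase q, w p r (dig k r i) := by
  rw [g, ← mul_prod_erase _ _ (Nat.mem_primeFactors.2 ⟨hq, d, hk⟩)]
  congr 1
  refine prod_congr rfl fun r hr => ?_
  obtain ⟨h1, h2⟩ := mem_erase.1 hr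
  rw [dig_other hk hq (Nat.prime_of_mem_primeFactors h2) d (Nat.dvd_of_mem_primeFactors h2) h1.symm]

theorem g_sum {k : ℕ} (hk : k ≠ 0) (p q : ℕ) (hq : q.Prime) (d : q ∣ k) (i : ℕ) :
    ∑ t ∈ range q, g k p (i + t * (k / q)) = 0 := by
  have := Fact.mk hq
  simp only [g_eq hk hq d]
  rw [← sum_mul, dig_sum hk d i (w p q)]
  refine mul_eq_zero_of_left ?_ _
  unfold w
  split_ifs with h
  · rw [sum_congr rfl (g := fun t : ℕ => (2 * t + 1 - q : ℤ)) fun t ht => by
      rw [ZMod.val_cast_of_lt (mem_range.1 ht)]]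
    have : ∀ n : ℕ, ∑ t ∈ range n, (2 * t + 1 - q : ℤ) = n ^ 2 - n * q := fun n => by
      induction n with
      | zero => simp
      | succ n ih => rw [sum_range_succ, ih]; push_cast; ring
    rw [this]; ring
  · rw [sum_congr rfl (g := fun t : ℕ => (if t = 0 then (q : ℤ) else 0) - 1) fun t ht => by
      have : (t : ZMod q) = 0 ↔ t = 0 := by
        rw [ZMod.natCast_eq_zero_iff]
        exact ⟨fun h => Nat.eq_zero_of_dvd_of_lt h (mem_range.1 ht), fun h => by simp [h]⟩
      simp only [this]; split_ifs <;> simp]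
    simp [hq.pos]

theorem vanish (k : ℕ) (hk : 1 < k) : ∃ (g : ℕ → ℤ) (θ : ℝ),
    (∀ f, Lg g (cyclotomic k ℤ * f) = 0) ∧
      ∑ i ∈ range k, Complex.exp (g i * (θ * Complex.I)) = 0 := by
  have ne : k.primeFactors.Nonempty := Nat.nonempty_primeFactors.2 hk
  set p := k.primeFactors.max' ne
  obtain ⟨hp, d, k0⟩ := Nat.mem_primeFactors.1 (max'_mem _ ne : p ∈ _)
  have := Fact.mk hp
  refine ⟨g k p, Real.pi / p, killZ k hk _ (g_sum k0 p), ?_⟩
  have := sum_mul_range (fun i => Complex.exp (g k p i * ((Real.pi / p : ℝ) * Complex.I))) (k / p) p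
  rw [Nat.mul_div_cancel' d] at this
  rw [this]
  refine sum_eq_zero fun r _ => ?_
  rw [sum_congr rfl fun t _ => by rw [g_eq k0 hp d p r t]]
  have hc : ¬ (p : ℤ) ∣ ∏ q ∈ k.primeFactors.erase p, w p q (dig k q r) := by
    rw [(Nat.prime_iff_prime_int.1 hp).dvd_finsetProd_iff]
    rintro ⟨q, hq, h⟩
    obtain ⟨h1, h2⟩ := mem_erase.1 hq
    have l : q ≤ p := le_max' _ _ h2
    have := (Nat.prime_of_mem_primeFactors h2).two_le
    have := hp.two_le
    rw [w, if_neg h1] at h
    split_ifs at h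
    · have := Int.le_of_dvd (by omega) h; omega
    · have := Int.le_of_dvd one_pos (dvd_neg.1 h); omega
  generalize ∏ q ∈ k.primeFactors.erase p, w p q (dig k q r) = c at *
  rw [dig_sum k0 d r fun y => Complex.exp ((w p p y * c : ℤ) * ((Real.pi / p : ℝ) * Complex.I))]
  have p0 : (p : ℂ) ≠ 0 := by exact_mod_cast hp.ne_zero
  have z := Complex.isPrimitiveRoot_exp p hp.ne_zero
  have e : ∀ t ∈ range p, Complex.exp ((w p p t * c : ℤ) * ((Real.pi / p : ℝ) * Complex.I)) =
      (Complex.exp (2 * Real.pi * Complex.I / p) ^ c) ^ t *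
        Complex.exp ((1 - p) * c * (Real.pi / p * Complex.I)) := fun t ht => by
    rw [w, if_pos rfl, ZMod.val_cast_of_lt (mem_range.1 ht), ← Complex.exp_int_mul,
      ← Complex.exp_nat_mul, ← Complex.exp_add]
    congr 1; push_cast; field_simp; ring
  rw [sum_congr rfl e, ← sum_mul, geom_sum_eq (fun h => hc ((z.zpow_eq_one_iff_dvd c).1 h)),
    ← zpow_natCast, ← zpow_mul, (z.zpow_eq_one_iff_dvd _).2 (dvd_mul_left _ _)]
  simp

end Pool.Agent.H.MP_086516_nt
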